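import Mathlib
import Pool.Agent.H62.FalseThetaDefs
import Pool.Agent.H62.FalseThetaZero

set_option autoImplicit false

namespace Pool.Agent.Results.MP_0ebc21_nt.ExpGrowth

open Pool.Agent.H62.FalseTheta

theorem result : ∀ a : ℕ, 1 ≤ a →
    ∃ β : ℝ, 1 < β ∧ ∃ᶠ n in Filter.atTop, β ^ n ≤ |(c a n : ℝ)| :=
  fun _ ha => exp_growth ha

end Pool.Agent.Results.MP_0ebc21_nt.ExpGrowth
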